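import Pool.Agent.H590.NL.Stm

/-!
# Derivative in `p` at a minimiser (assembly), all dimensions
-/

set_option autoImplicit false

noncomputable section

open MeasureTheory Filter Topology Set
open scoped BigOperators ENNReal

namespace H387NL

open H590NL
open H590PL (Xi)

section

variable {n : ℕ} {κ : Type} [Fintype κ]

omit [Fintype κ] in
theorem bu_zero (k : κ) : bu k 0 = one := by
  classical
  unfold bu one
  rw [add_zero]
  exact Function.update_eq_self (f := fun _ => (1 : ℝ)) k

omit [Fintype κ] in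
theorem bu_pos (k : κ) {y : ℝ} (hy : -1 < y) (j : κ) : 0 < bu k y j := by
  classical
  unfold bu
  rw [Function.update_apply]
  split_ifs
  · linarith
  · exact one_pos

/-- the scaled configuration -/
def sc (p : ℝ) (v : κ → V n) (k : κ) (y : ℝ) : κ → V n := fun j => bu k y j ^ (1 / p) • v j

omit [Fintype κ] in
theorem spans_sc {p : ℝ} {v : κ → V n} (hv : Spans v) (k : κ) {y : ℝ} (hy : -1 < y) :
    Spans (sc p v k y) := by
  obtain ⟨f, hf⟩ := hv
  refine ⟨f, ?_⟩
  have e : dm (sc p v k y) f =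
      Matrix.of fun i j => bu k y (f i) ^ (1 / p) * dm v f i j := by
    ext i j
    simp [dm, sc]
  rw [e, Matrix.det_mul_column]
  exact mul_ne_zero (Finset.prod_ne_zero_iff.2 fun i _ =>
    (Real.rpow_pos_of_pos (bu_pos k hy (f i)) _).ne') hf

theorem prod_ge (h6 : S_GL) (h7 : S_SC) (h8 : S_NO) {p : ℝ} (hp1 : 1 < p) (hp2 : p < 2)
    {v : κ → V n} (hv : Nrm v)
    (hmin : ∀ w : κ → V n, Nrm w → FF p v one * AA p v one ≤ FF p w one * AA p w one) (k : κ)
    {y : ℝ} (hy : -1 < y) :
    FF p v one * AA p v one ≤ FF p v (bu k y) * AA p v (bu k y) := by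
  have hs : Spans v := (h8 n κ).2.2 v hv
  obtain ⟨e1, e2⟩ := h7 n κ p hp1 hp2.le v (bu k y) (bu_pos k hy)
  obtain ⟨M, hd, hN⟩ := (h8 n κ).1 (sc p v k y) (spans_sc hs k hy)
  obtain ⟨g1, g2⟩ := h6 n κ p hp1 hp2.le (sc p v k y) one M hd
  have h := hmin _ hN
  rw [g1, g2] at h
  have hd' : |M.det| ≠ 0 := abs_ne_zero.2 hd
  have e3 : |M.det|⁻¹ * FF p (sc p v k y) one *
      (|M.det| * AA p (sc p v k y) one) =
      FF p (sc p v k y) one * AA p (sc p v k y) one := by
    field_simp
  rw [e3] at h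
  rw [e1, e2]
  exact h

theorem FF_pos (h7 : S_SC) (h12 : S_IF) {p : ℝ} (hp1 : 1 < p) (hp2 : p < 2) {v : κ → V n}
    (hs : Spans v) (k : κ) {y : ℝ} (hy : -1 < y) : 0 < FF p v (bu k y) := by
  rw [(h7 n κ p hp1 hp2.le v (bu k y) (bu_pos k hy)).1]
  exact (h12 n κ p hp1 hp2.le (sc p v k y) (spans_sc hs k hy)).2.1

theorem TT_nonneg (p : ℝ) (v : κ → V n) (k : κ) : 0 ≤ TT p v k :=
  integral_nonneg fun _ => mul_nonneg (Real.exp_pos _).le
    (Real.rpow_nonneg (abs_nonneg _) _)

/-- the general identity -/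
theorem ident (h1 : S_GF) (h2 : S_GA) (h12 : S_IF) (h13 : S_IA) {p : ℝ} (hp1 : 1 < p)
    (hp2 : p < 2) {v : κ → V n} (hs : Spans v) (k : κ)
    (hTR : TT p v k / FF p v one = RR p v k / AA p v one) :
    IntegrableOn (fun y : ℝ =>
      (FF p v (bu k y) / FF p v one + AA p v (bu k y) / AA p v one - 2) / y ^ 2) (Ioi 0) ∧
    DFk p v k / FF p v one + DAk p v k / AA p v one =
      ∫ y in Ioi (0 : ℝ),
        (FF p v (bu k y) / FF p v one + AA p v (bu k y) / AA p v one - 2) / y ^ 2 := by
  have hF := (h12 n κ p hp1 hp2.le v hs).2.1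
  have hA := (h13 n κ p hp1 hp2.le v hs).2.1
  obtain ⟨i1, i2⟩ := h1 n κ p hp1 hp2 v hs k
  obtain ⟨j1, j2⟩ := h2 n κ p hp1 hp2 v hs k
  have e : (fun y : ℝ =>
      (FF p v (bu k y) / FF p v one + AA p v (bu k y) / AA p v one - 2) / y ^ 2) =
      fun y : ℝ =>
      (FF p v (bu k y) - FF p v one + y * Real.exp (-y) * TT p v k) / y ^ 2 / FF p v one +
      (AA p v (bu k y) - AA p v one - y * Real.exp (-y) * RR p v k) / y ^ 2 / AA p v one := by
    funext y
    have e1 : (FF p v (bu k y) - FF p v one + y * Real.exp (-y) * TT p v k) / y ^ 2 / FF p v one =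
        (FF p v (bu k y) / FF p v one - 1 + y * Real.exp (-y) * (TT p v k / FF p v one)) /
          y ^ 2 := by
      field_simp
    have e2 : (AA p v (bu k y) - AA p v one - y * Real.exp (-y) * RR p v k) / y ^ 2 / AA p v one =
        (AA p v (bu k y) / AA p v one - 1 - y * Real.exp (-y) * (RR p v k / AA p v one)) /
          y ^ 2 := by
      field_simp
    rw [e1, e2, hTR, ← add_div]
    congr 1
    ring
  have I1 := i1.div_const (FF p v one)
  have I2 := j1.div_const (AA p v one)
  rw [e]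
  refine ⟨I1.add I2, ?_⟩
  rw [integral_add I1 I2, integral_div, integral_div, i2, j2, sub_div, add_div, hTR]
  ring

end

/-- t + 1/t is increasing for t >= 1 -/
theorem mono_aux {X Z u : ℝ} (hX : 0 < X) (hu : 1 ≤ u) (h1 : X ≤ u⁻¹) (h2 : 1 ≤ X * Z) :
    u + u⁻¹ ≤ X + Z := by
  have hu0 : 0 < u := by linarith
  have hZ : X⁻¹ ≤ Z := by
    rw [inv_le_iff_one_le_mul₀ hX]
    linarith [mul_comm X Z]
  have h3 : X * u ≤ 1 := by
    have := mul_le_mul_of_nonneg_right h1 hu0.le
    rwa [inv_mul_cancel₀ hu0.ne'] at this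
  have h4 : u + u⁻¹ ≤ X + X⁻¹ := by
    have h5 : X + X⁻¹ - (u + u⁻¹) = (1 - X * u) * (u - X) / (X * u) := by
      field_simp
      ring
    have h6 : X ≤ u := by
      have : u⁻¹ ≤ 1 := inv_le_one_of_one_le₀ hu
      linarith
    have h7 : 0 ≤ (1 - X * u) * (u - X) / (X * u) :=
      div_nonneg (mul_nonneg (by linarith) (by linarith)) (mul_pos hX hu0).le
    linarith
  linarith

theorem spans_ee (n : ℕ) : Spans (ee n) := by
  refine ⟨id, ?_⟩
  have e : dm (ee n) id = 1 := by
    ext i j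
    simp [dm, ee, Matrix.one_apply, Pi.single_apply, eq_comm]
  rw [e, Matrix.det_one]
  exact one_ne_zero

/-- **MI** -/
theorem MI (h1 : S_GF) (h2 : S_GA) (h3 : S_DBF) (h4 : S_DBA) (h5 : S_EUL) (h6 : S_GL) (h7 : S_SC)
    (h8 : S_NO) (h9 : S_KEY) (h10 : S_OR) (h11 : H590PL.S_XI) (h12 : S_IF) (h13 : S_IA)
    (_h14 : S_LA) : S_MI := by
  intro n κ _ p hp1 hp2 v hv hmin
  have hp0 : 0 < p := by linarith
  have hs : Spans v := (h8 n κ).2.2 v hv
  have hF := (h12 n κ p hp1 hp2.le v hs).2.1
  have hA := (h13 n κ p hp1 hp2.le v hs).2.1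
  obtain ⟨x1, x2⟩ := h11 p hp1 hp2
  -- the standard basis
  have hE : (∑ k, DFk p (ee n) k) / FF p (ee n) one + (∑ k, DAk p (ee n) k) / AA p (ee n) one =
      n * Xi p 1 := by
    have hFe := (h12 n (Fin n) p hp1 hp2.le (ee n) (spans_ee n)).2.1
    have hAe := (h13 n (Fin n) p hp1 hp2.le (ee n) (spans_ee n)).2.1
    obtain ⟨-, -, hor⟩ := h10 n p hp1 hp2.le
    have key : ∀ k : Fin n, DFk p (ee n) k / FF p (ee n) one + DAk p (ee n) k / AA p (ee n) one =
        Xi p 1 := by
      intro k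
      have hnear : ∀ᶠ y : ℝ in 𝓝 0, -1 < y := Ioi_mem_nhds (by norm_num)
      have d1 : HasDerivAt (fun y => FF p (ee n) (bu k y)) (-(1 / p) * FF p (ee n) one) 0 := by
        have q1 : HasDerivAt (fun y : ℝ => (1 + y) ^ (-(1 / p))) (-(1 / p)) 0 := by
          have q2 : HasDerivAt (fun y : ℝ => 1 + y) 1 0 := (hasDerivAt_id 0).const_add 1
          have q3 := q2.rpow_const (p := -(1 / p)) (Or.inl (by norm_num))
          simpa using q3
        refine (q1.mul_const (FF p (ee n) one)).congr_of_eventuallyEq ?_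
        filter_upwards [hnear] with y hy
        exact (hor k y hy).1
      have d2 : HasDerivAt (fun y => AA p (ee n) (bu k y)) (1 / p * AA p (ee n) one) 0 := by
        have q1 : HasDerivAt (fun y : ℝ => (1 + y) ^ (1 / p)) (1 / p) 0 := by
          have q2 : HasDerivAt (fun y : ℝ => 1 + y) 1 0 := (hasDerivAt_id 0).const_add 1
          have q3 := q2.rpow_const (p := 1 / p) (Or.inl (by norm_num))
          simpa using q3
        refine (q1.mul_const (AA p (ee n) one)).congr_of_eventuallyEq ?_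
        filter_upwards [hnear] with y hy
        exact (hor k y hy).2
      have t1 : TT p (ee n) k = 1 / p * FF p (ee n) one := by
        have := (h3 n (Fin n) p hp1 hp2 (ee n) (spans_ee n) k).unique d1
        linarith
      have t2 : RR p (ee n) k = 1 / p * AA p (ee n) one :=
        (h4 n (Fin n) p hp1 hp2 (ee n) (spans_ee n) k).unique d2
      have hTR : TT p (ee n) k / FF p (ee n) one = RR p (ee n) k / AA p (ee n) one := by
        rw [t1, t2, mul_div_assoc, mul_div_assoc, div_self hFe.ne', div_self hAe.ne']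
      rw [(ident h1 h2 h12 h13 hp1 hp2 (spans_ee n) k hTR).2]
      unfold Xi
      refine setIntegral_congr_fun measurableSet_Ioi fun y hy => ?_
      have hy' : -1 < y := by
        have : (0 : ℝ) < y := hy
        linarith
      obtain ⟨o1, o2⟩ := hor k y hy'
      show (FF p (ee n) (bu k y) / FF p (ee n) one + AA p (ee n) (bu k y) / AA p (ee n) one - 2) /
        y ^ 2 = ((1 + 1 * y) ^ (1 / p) + (1 + 1 * y) ^ (-(1 / p)) - 2) / y ^ 2
      rw [o1, o2, mul_div_assoc, mul_div_assoc, div_self hFe.ne', div_self hAe.ne', one_mul,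
        mul_one, mul_one, add_comm ((1 + y) ^ (-(1 / p)))]
    rw [Finset.sum_div, Finset.sum_div, ← Finset.sum_add_distrib, Finset.sum_congr rfl
      fun k _ => key k]
    simp
  -- the minimiser
  have hV : ∀ k, p * TT p v k / FF p v one * Xi p 1 ≤
      DFk p v k / FF p v one + DAk p v k / AA p v one := by
    intro k
    have hge := fun (y : ℝ) (hy : -1 < y) => prod_ge h6 h7 h8 hp1 hp2 hv hmin k hy
    have hTR : TT p v k / FF p v one = RR p v k / AA p v one := by
      have d1 := h3 n κ p hp1 hp2 v hs k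
      have d2 := h4 n κ p hp1 hp2 v hs k
      have d3 := d1.mul d2
      have hmin0 : IsLocalMin ((fun y => FF p v (bu k y)) * fun y => AA p v (bu k y)) 0 := by
        have hnear : ∀ᶠ y : ℝ in 𝓝 0, -1 < y := Ioi_mem_nhds (by norm_num)
        filter_upwards [hnear] with y hy
        show FF p v (bu k 0) * AA p v (bu k 0) ≤ FF p v (bu k y) * AA p v (bu k y)
        rw [bu_zero]
        exact hge y hy
      have h0 := hmin0.hasDerivAt_eq_zero d3
      rw [bu_zero] at h0
      rw [div_eq_div_iff hF.ne' hA.ne']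
      linarith
    obtain ⟨hint, hid⟩ := ident h1 h2 h12 h13 hp1 hp2 hs k hTR
    rw [hid]
    have hl : 0 ≤ p * TT p v k / FF p v one :=
      div_nonneg (mul_nonneg hp0.le (TT_nonneg p v k)) hF.le
    have hx := x2 _ hl
    rw [← hx]
    unfold Xi
    refine setIntegral_mono_on (x1 _ hl) hint measurableSet_Ioi fun y hy => ?_
    have hy0 : (0 : ℝ) < y := hy
    have hb1 : 1 ≤ 1 + p * TT p v k / FF p v one * y := by
      have := mul_nonneg hl hy0.le
      linarith
    have hb0 : 0 < 1 + p * TT p v k / FF p v one * y := by linarith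
    have hu : 1 ≤ (1 + p * TT p v k / FF p v one * y) ^ (1 / p) :=
      Real.one_le_rpow hb1 (by positivity)
    have hkey := h9 n κ p hp1 hp2 v hs k y hy0.le
    have hFy := FF_pos h7 h12 hp1 hp2 hs k (y := y) (by linarith)
    have hX : 0 < FF p v (bu k y) / FF p v one := div_pos hFy hF
    have hXu : FF p v (bu k y) / FF p v one ≤
        ((1 + p * TT p v k / FF p v one * y) ^ (1 / p))⁻¹ := by
      rw [← Real.rpow_neg hb0.le, div_le_iff₀ hF, mul_comm]
      exact hkey
    have hXZ : 1 ≤ FF p v (bu k y) / FF p v one * (AA p v (bu k y) / AA p v one) := by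
      rw [div_mul_div_comm, one_le_div (mul_pos hF hA)]
      exact hge y (by linarith)
    have hfin := mono_aux hX hu hXu hXZ
    rw [← Real.rpow_neg hb0.le] at hfin
    exact div_le_div_of_nonneg_right (by linarith) (by positivity)
  rw [hE, Finset.sum_div, Finset.sum_div, ← Finset.sum_add_distrib]
  refine le_trans (le_of_eq ?_) (Finset.sum_le_sum fun k _ => hV k)
  rw [← Finset.sum_mul, ← Finset.sum_div, ← Finset.mul_sum, h5 n κ p hp1 hp2.le v hs]
  congr 1
  field_simp

end H387NL
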